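import Pool.Agent.H606.AV.Stm5

set_option autoImplicit false

/-!
# Project AV / LF (helper606), FACB: finite factorisation of an entire function in a ball (helper227)
-/

open Complex Filter Topology Metric Set MeasureTheory

namespace Pool.Agent.H227.AV.FACB

/-- One zero with its multiplicity. -/
theorem one_zero (k : ℂ → ℂ) (w : ℂ) (hk : Differentiable ℂ k) (ho : analyticOrderAt k w ≠ ⊤) :
    ∃ k1 : ℂ → ℂ, Differentiable ℂ k1 ∧ k1 w ≠ 0 ∧
      ∀ z, k z = (z - w) ^ (analyticOrderNatAt k w) * k1 z := by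
  obtain ⟨g, hg, hgw, hev⟩ := (AnalyticAt.analyticOrderAt_ne_top (hk.analyticAt w)).mp ho
  obtain ⟨m, hm⟩ : ∃ m, m = analyticOrderNatAt k w := ⟨_, rfl⟩
  rw [← hm] at hev ⊢
  classical
  obtain ⟨k1, hk1⟩ : ∃ k1 : ℂ → ℂ, k1 = fun z => if z = w then g w else k z / (z - w) ^ m := ⟨_, rfl⟩
  have hk1w : k1 w = g w := by rw [hk1]; exact if_pos rfl
  have hk1z : ∀ z, z ≠ w → k1 z = k z / (z - w) ^ m := by
    intro z hz
    rw [hk1]
    exact if_neg hz
  have hloc : k1 =ᶠ[𝓝 w] g := by
    filter_upwards [hev] with z hz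
    by_cases h : z = w
    · rw [h, hk1w]
    · rw [hk1z z h, hz, smul_eq_mul, mul_div_cancel_left₀]
      exact pow_ne_zero _ (sub_ne_zero.mpr h)
  refine ⟨k1, ?_, ?_, ?_⟩
  · intro z
    by_cases h : z = w
    · rw [h]
      exact (hg.differentiableAt).congr_of_eventuallyEq hloc
    · have h1 : DifferentiableAt ℂ (fun z => k z / (z - w) ^ m) z := by
        refine DifferentiableAt.div (hk z) ?_ (pow_ne_zero _ (sub_ne_zero.mpr h))
        exact (differentiableAt_id.sub_const w).pow m
      refine h1.congr_of_eventuallyEq ?_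
      filter_upwards [isOpen_ne.mem_nhds h] with y hy
      exact hk1z y hy
  · rw [hk1w]; exact hgw
  · intro z
    by_cases h : z = w
    · have h2 := hev.self_of_nhds
      rw [h, hk1w, h2]
      exact smul_eq_mul _ _
    · rw [hk1z z h, mul_div_cancel₀]
      exact pow_ne_zero _ (sub_ne_zero.mpr h)

/-- A nonzero entire function has finite order everywhere. -/
theorem order_fin (g : ℂ → ℂ) (c : ℂ) (hg : Differentiable ℂ g) (hc : g c ≠ 0) (w : ℂ) :
    analyticOrderAt g w ≠ ⊤ := by
  intro h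
  rw [analyticOrderAt_eq_top] at h
  have h1 : AnalyticOnNhd ℂ g Set.univ := fun z _ => hg.analyticAt z
  have h2 : AnalyticOnNhd ℂ (fun _ : ℂ => (0 : ℂ)) Set.univ := fun z _ => analyticAt_const
  have h3 : g = fun _ => 0 := h1.eq_of_eventuallyEq h2 h
  exact hc (congrFun h3 c)

/-- The zeros in a ball are finitely many. -/
theorem zeros_fin (g : ℂ → ℂ) (c : ℂ) (R : ℝ) (hg : Differentiable ℂ g) (hc : g c ≠ 0) :
    {z : ℂ | z ∈ ball c R ∧ g z = 0}.Finite := by
  by_contra hinf
  have hinf' : {z : ℂ | z ∈ ball c R ∧ g z = 0}.Infinite := hinf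
  obtain ⟨x, _, hx⟩ := hinf'.exists_accPt_of_subset_isCompact (isCompact_closedBall c R)
    (fun z hz => ball_subset_closedBall hz.1)
  rw [accPt_iff_frequently_nhdsNE] at hx
  have h0 : ∃ᶠ z in 𝓝[≠] x, g z = (fun _ : ℂ => (0 : ℂ)) z := hx.mono (fun z hz => hz.2)
  have h1 : AnalyticOnNhd ℂ g Set.univ := fun z _ => hg.analyticAt z
  have h2 : AnalyticOnNhd ℂ (fun _ : ℂ => (0 : ℂ)) Set.univ := fun z _ => analyticAt_const
  have h3 : g = fun _ => 0 := h1.eq_of_frequently_eq h2 h0
  exact hc (congrFun h3 c)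

/-- Factorisation over a finite set of points. -/
theorem factor (g : ℂ → ℂ) (c : ℂ) (hg : Differentiable ℂ g) (hc : g c ≠ 0) (Z : Finset ℂ) :
    ∃ k : ℂ → ℂ, Differentiable ℂ k ∧
      (∀ z, g z = k z * ∏ w ∈ Z, (z - w) ^ (analyticOrderNatAt g w)) ∧ ∀ w ∈ Z, k w ≠ 0 := by
  classical
  refine Finset.induction_on Z ?_ ?_
  · refine ⟨g, hg, ?_, ?_⟩
    · intro z
      rw [Finset.prod_empty, mul_one]
    · intro w hw
      exact absurd hw (Finset.notMem_empty w)
  · intro w Z hw ih
    obtain ⟨k, hk, hf, hne⟩ := ih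
    obtain ⟨h, hh⟩ : ∃ h : ℂ → ℂ, h = fun z => ∏ w ∈ Z, (z - w) ^ (analyticOrderNatAt g w) := ⟨_, rfl⟩
    have hhd : Differentiable ℂ h := by
      rw [hh]
      intro z
      have : DifferentiableAt ℂ (fun z => ∏ w ∈ Z, (z - w) ^ (analyticOrderNatAt g w)) z :=
        DifferentiableAt.fun_finsetProd (fun i _ => (differentiableAt_id.sub_const i).pow _)
      exact this
    have hhw : h w ≠ 0 := by
      rw [hh]
      refine Finset.prod_ne_zero_iff.mpr ?_
      intro a ha
      refine pow_ne_zero _ (sub_ne_zero.mpr ?_)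
      rintro rfl
      exact hw ha
    have hgk : g = k * h := by
      funext z
      rw [hf z, Pi.mul_apply, hh]
    have hord : analyticOrderAt g w = analyticOrderAt k w := by
      rw [hgk, analyticOrderAt_mul (hk.analyticAt w) (hhd.analyticAt w),
        ((hhd.analyticAt w).analyticOrderAt_eq_zero).mpr hhw, add_zero]
    have hordn : analyticOrderNatAt k w = analyticOrderNatAt g w := by
      unfold analyticOrderNatAt
      rw [hord]
    have hkt : analyticOrderAt k w ≠ ⊤ := by
      rw [← hord]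
      exact order_fin g c hg hc w
    obtain ⟨k1, hk1, hk1w, hk1z⟩ := one_zero k w hk hkt
    rw [hordn] at hk1z
    refine ⟨k1, hk1, ?_, ?_⟩
    · intro z
      rw [Finset.prod_insert hw, hf z, hk1z z]
      ring
    · intro a ha
      rw [Finset.mem_insert] at ha
      rcases ha with rfl | ha
      · exact hk1w
      · intro h0
        apply hne a ha
        rw [hk1z a, h0, mul_zero]

/-- The multiset of the zeros. -/
theorem multi_prod (m : ℂ → ℕ) (f : ℂ → ℂ) (Z : Finset ℂ) :
    ((∑ w ∈ Z, Multiset.replicate (m w) w).map f).prod = ∏ w ∈ Z, f w ^ m w := by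
  classical
  refine Finset.induction_on Z ?_ ?_
  · rw [Finset.sum_empty, Finset.prod_empty, Multiset.map_zero, Multiset.prod_zero]
  · intro w Z hw ih
    rw [Finset.sum_insert hw, Finset.prod_insert hw, Multiset.map_add, Multiset.prod_add, ih,
      Multiset.map_replicate, Multiset.prod_replicate]

theorem multi_card (m : ℂ → ℕ) (p : ℂ → Prop) [DecidablePred p] (Z : Finset ℂ) :
    ((∑ w ∈ Z, Multiset.replicate (m w) w).filter p).card = ∑ w ∈ Z.filter p, m w := by
  classical
  refine Finset.induction_on Z ?_ ?_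
  · rw [Finset.sum_empty, Multiset.filter_zero, Multiset.card_zero, Finset.filter_empty,
      Finset.sum_empty]
  · intro w Z hw ih
    rw [Finset.sum_insert hw, Multiset.filter_add, Multiset.card_add, ih, Finset.filter_insert]
    by_cases h : p w
    · rw [if_pos h, Finset.sum_insert (fun h' => hw (Finset.mem_filter.mp h').1)]
      have : Multiset.filter p (Multiset.replicate (m w) w) = Multiset.replicate (m w) w := by
        rw [Multiset.filter_eq_self]
        intro a ha
        rw [Multiset.eq_of_mem_replicate ha]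
        exact h
      rw [this, Multiset.card_replicate]
    · rw [if_neg h]
      have : Multiset.filter p (Multiset.replicate (m w) w) = 0 := by
        rw [Multiset.filter_eq_nil]
        intro a ha
        rw [Multiset.eq_of_mem_replicate ha]
        exact h
      rw [this, Multiset.card_zero, zero_add]

theorem multi_mem (m : ℂ → ℕ) (Z : Finset ℂ) (a : ℂ)
    (ha : a ∈ ∑ w ∈ Z, Multiset.replicate (m w) w) : a ∈ Z := by
  rw [Multiset.mem_sum] at ha
  obtain ⟨w, hw, h⟩ := ha
  rw [Multiset.eq_of_mem_replicate h]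
  exact hw

open Classical in
/-- **FACB.** -/
theorem S_FACB_proof : Pool.Agent.H606.AV.S_FACB := by
  intro g c R hR hg hc
  have hfin := zeros_fin g c R hg hc
  obtain ⟨Z, hZ⟩ : ∃ Z : Finset ℂ, ∀ z, z ∈ Z ↔ z ∈ ball c R ∧ g z = 0 := by
    refine ⟨hfin.toFinset, ?_⟩
    intro z
    rw [Set.Finite.mem_toFinset]
    exact Iff.rfl
  obtain ⟨k, hk, hf, hne⟩ := factor g c hg hc Z
  refine ⟨∑ w ∈ Z, Multiset.replicate (analyticOrderNatAt g w) w, k, hk, ?_, ?_, ?_, ?_⟩
  · intro z
    rw [multi_prod (analyticOrderNatAt g) (fun w => z - w) Z]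
    exact hf z
  · intro z hz
    by_cases h : z ∈ Z
    · exact hne z h
    · intro h0
      apply h
      rw [hZ]
      refine ⟨hz, ?_⟩
      rw [hf z, h0, zero_mul]
  · intro w hw
    exact (hZ w).mp (multi_mem _ Z w hw)
  · intro S hS
    rw [multi_card (analyticOrderNatAt g) (fun w => w ∈ S) Z]
    unfold Pool.Agent.H606.AV.Nm
    have e : {z : ℂ | z ∈ S ∧ g z = 0} = ((Z.filter (fun w => w ∈ S) : Finset ℂ) : Set ℂ) := by
      ext z
      rw [Finset.mem_coe, Finset.mem_filter, hZ]
      constructor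
      · rintro ⟨h1, h2⟩
        exact ⟨⟨hS h1, h2⟩, h1⟩
      · rintro ⟨⟨_, h2⟩, h1⟩
        exact ⟨h1, h2⟩
    rw [e, finsum_mem_coe_finset]
    push_cast
    rfl

end Pool.Agent.H227.AV.FACB
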